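import Pool.Agent.Q83.Hyp.Fin

/-! Recurrence of the hyperextension on compact sets is equivalent to its recurrence on compact
convex sets. -/

set_option autoImplicit false

open Pool.Agent.Q83.Hyp

namespace Pool.Agent.Results.MP_a90892_an.ConvexCompact

/-- For every `ℓ`, every Furstenberg family `A` and every continuous linear operator `f` on a
locally convex space (real or complex), the hyperextension of `f` to the nonempty compact sets is
topologically `(ℓ, A)`-recurrent if and only if its restriction to the nonempty compact convex sets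
is. -/
theorem result {𝕜 X : Type*} [RCLike 𝕜] [AddCommGroup X] [Module 𝕜 X] [Module ℝ X]
    [IsScalarTower ℝ 𝕜 X] [TopologicalSpace X] [IsTopologicalAddGroup X] [ContinuousSMul 𝕜 X]
    [LocallyConvexSpace ℝ X] (f : X →L[𝕜] X) (ℓ : ℕ) (A : Set (Set ℕ)) (hA : IsFurstenberg A) :
    TopRecurrent (hyper f) ℓ A ↔ TopRecurrent (hyperConv f) ℓ A := by
  haveI : ContinuousSMul ℝ X := IsScalarTower.continuousSMul 𝕜
  exact ⟨conv_of_compact f ℓ hA, compact_of_conv f ℓ hA⟩

end Pool.Agent.Results.MP_a90892_an.ConvexCompact
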